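import Pool.Agent.D0H36.BL.Stm

/-!
Module CLS of project BL51: the class of planar graphs has the closure properties `Cls`; book graphs.

Author: helper73.
-/

set_option autoImplicit false

namespace Pool.Agent.D0H73.BL

open Polynomial Pool.Agent.H207R2.BL Pool.Agent.Y865.RF Pool.Agent.R814.BL Pool.Agent.D0H36.BL

/-! ### walks stay in the support of the graph -/

theorem walk_supp {V : Type} {G : SimpleGraph V} {u v : V} (w : G.Walk u v) (hu : ∃ t, G.Adj u t) :
    ∀ z ∈ w.support, ∃ t, G.Adj z t := by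
  induction w with
  | nil =>
    intro z hz
    rw [SimpleGraph.Walk.support_nil, List.mem_singleton] at hz
    rw [hz]
    exact hu
  | @cons a b c hab w ih =>
    intro z hz
    rw [SimpleGraph.Walk.support_cons, List.mem_cons] at hz
    rcases hz with rfl | hz
    · exact ⟨b, hab⟩
    · exact ih ⟨a, hab.symm⟩ z hz

theorem walk_first {V : Type} {G : SimpleGraph V} {u v : V} (w : G.Walk u v) (h : u ≠ v) :
    ∃ t, G.Adj u t ∧ t ∈ w.support := by
  cases w with
  | nil => exact absurd rfl h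
  | @cons _ b _ hab w =>
    exact ⟨b, hab, by simp⟩

theorem cn_supp {V : Type} {G : SimpleGraph V} {A : Set V} {u v : V} (h : Cn G A u v)
    (huv : u ≠ v) : Cn G (A ∩ {z | ∃ t, G.Adj z t}) u v := by
  obtain ⟨w, hw⟩ := h
  obtain ⟨t, ht, -⟩ := walk_first w huv
  exact ⟨w, fun z hz => ⟨hw z hz, walk_supp w ⟨t, ht⟩ z hz⟩⟩

theorem cn_left {V : Type} {G : SimpleGraph V} {A : Set V} {u v : V} (h : Cn G A u v) : u ∈ A := by
  obtain ⟨w, hw⟩ := h
  exact hw u (by simp)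

theorem cn_right {V : Type} {G : SimpleGraph V} {A : Set V} {u v : V} (h : Cn G A u v) : v ∈ A := by
  obtain ⟨w, hw⟩ := h
  exact hw v (by simp)

theorem five_two : ∀ a b : Fin 5, ∃ c d : Fin 5, c ≠ d ∧ a ≠ c ∧ a ≠ d ∧ b ≠ c ∧ b ≠ d := by
  decide

/-- weak `K₅`, symmetric form, all sets inside the support -/
theorem wk_sym {V : Type} {G : SimpleGraph V} (h : WK V G) :
    ∃ (x : Fin 5 → V) (A : Fin 5 → Fin 5 → Set V), Function.Injective x ∧
      (∀ a b, a ≠ b → Cn G (A a b) (x a) (x b)) ∧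
      (∀ a b c d, a ≠ b → c ≠ d → a ≠ c → a ≠ d → b ≠ c → b ≠ d → Disjoint (A a b) (A c d)) ∧
      (∀ a b, A a b ⊆ {z | ∃ t, G.Adj z t}) := by
  obtain ⟨x, A, h1, h2⟩ := h
  let B : Fin 5 → Fin 5 → Set V := fun a b => if a < b then A a b else A b a
  have hB : ∀ a b, a ≠ b → Cn G (B a b) (x a) (x b) := by
    intro a b hab
    rcases lt_or_gt_of_ne hab with h | h
    · simp only [B, if_pos h]
      exact h1 a b h
    · simp only [B, if_neg (not_lt.2 h.le)]
      exact (h1 b a h).symm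
  have hD : ∀ a b c d, a ≠ b → c ≠ d → a ≠ c → a ≠ d → b ≠ c → b ≠ d →
      Disjoint (B a b) (B c d) := by
    intro a b c d hab hcd e1 e2 e3 e4
    rcases lt_or_gt_of_ne hab with h | h <;> rcases lt_or_gt_of_ne hcd with h' | h'
    · simp only [B, if_pos h, if_pos h']
      exact h2 a b c d h h' e1 e2 e3 e4
    · simp only [B, if_pos h, if_neg (not_lt.2 h'.le)]
      exact h2 a b d c h h' e2 e1 e4 e3
    · simp only [B, if_neg (not_lt.2 h.le), if_pos h']
      exact h2 b a c d h h' e3 e4 e1 e2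
    · simp only [B, if_neg (not_lt.2 h.le), if_neg (not_lt.2 h'.le)]
      exact h2 b a d c h h' e4 e3 e2 e1
  have hx : Function.Injective x := by
    intro a b hab
    by_contra hne
    obtain ⟨c, d, h1, h2, h3, h4, h5⟩ := five_two a b
    have k1 := cn_left (hB a c h2)
    have k2 := cn_left (hB b d h5)
    rw [hab] at k1
    exact Set.disjoint_left.1 (hD a c b d h2 h5 hne h3 h4.symm h1) k1 k2
  refine ⟨x, fun a b => B a b ∩ {z | ∃ t, G.Adj z t}, hx, ?_, ?_, fun a b => Set.inter_subset_right⟩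
  · intro a b hab
    exact cn_supp (hB a b hab) (fun h => hab (hx h))
  · intro a b c d hab hcd e1 e2 e3 e4
    exact (hD a b c d hab hcd e1 e2 e3 e4).mono Set.inter_subset_left Set.inter_subset_left

/-- weak `K₃₃`, all sets inside the support -/
theorem wb_sym {V : Type} {G : SimpleGraph V} (h : WB V G) :
    ∃ (x y : Fin 3 → V) (A : Fin 3 → Fin 3 → Set V), Function.Injective x ∧ Function.Injective y ∧
      (∀ a b, x a ≠ y b) ∧
      (∀ a b, Cn G (A a b) (x a) (y b)) ∧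
      (∀ a b c d, a ≠ c → b ≠ d → Disjoint (A a b) (A c d)) ∧
      (∀ a b, A a b ⊆ {z | ∃ t, G.Adj z t}) := by
  obtain ⟨x, y, A, h1, h2⟩ := h
  have e3 : ∀ a : Fin 3, ∃ b, b ≠ a := by decide
  have hx : Function.Injective x := by
    intro a b hab
    by_contra hne
    have k1 := cn_left (h1 a 0)
    have k2 := cn_left (h1 b 1)
    rw [hab] at k1
    exact Set.disjoint_left.1 (h2 a 0 b 1 hne (by decide)) k1 k2
  have hy : Function.Injective y := by
    intro a b hab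
    by_contra hne
    have k1 := cn_right (h1 0 a)
    have k2 := cn_right (h1 1 b)
    rw [hab] at k1
    exact Set.disjoint_left.1 (h2 0 a 1 b (by decide) hne) k1 k2
  have hxy : ∀ a b, x a ≠ y b := by
    intro a b hab
    obtain ⟨c, hc⟩ := e3 a
    obtain ⟨d, hd⟩ := e3 b
    have k1 := cn_left (h1 a d)
    have k2 := cn_right (h1 c b)
    rw [hab] at k1
    exact Set.disjoint_left.1 (h2 a d c b hc.symm hd) k1 k2
  refine ⟨x, y, fun a b => A a b ∩ {z | ∃ t, G.Adj z t}, hx, hy, hxy, ?_, ?_,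
    fun a b => Set.inter_subset_right⟩
  · intro a b
    exact cn_supp (h1 a b) (hxy a b)
  · intro a b c d e1 e2
    exact (h2 a b c d e1 e2).mono Set.inter_subset_left Set.inter_subset_left

/-! ### the closure properties -/

theorem wk_emb (V W : Type) (f : V → W) (hf : Function.Injective f) (G : SimpleGraph W)
    (h : WK V (G.comap f)) : WK W G := by
  obtain ⟨x, A, h1, h2⟩ := h
  have : Nonempty V := ⟨x 0⟩
  exact wk_of_map (Function.invFun f) f (Function.leftInverse_invFun hf)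
    (fun a b hab => Cn.adj hab
      (by rw [Set.mem_preimage, Function.leftInverse_invFun hf]; simp)
      (by rw [Set.mem_preimage, Function.leftInverse_invFun hf]; simp)) ⟨x, A, h1, h2⟩

theorem wb_emb (V W : Type) (f : V → W) (hf : Function.Injective f) (G : SimpleGraph W)
    (h : WB V (G.comap f)) : WB W G := by
  obtain ⟨x, y, A, h1, h2⟩ := h
  have : Nonempty V := ⟨x 0⟩
  exact wb_of_map (Function.invFun f) f (Function.leftInverse_invFun hf)
    (fun a b hab => Cn.adj hab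
      (by rw [Set.mem_preimage, Function.leftInverse_invFun hf]; simp)
      (by rw [Set.mem_preimage, Function.leftInverse_invFun hf]; simp)) ⟨x, y, A, h1, h2⟩

theorem cn_pull {V W : Type} (f : V ↪ W) (G : SimpleGraph V) {A : Set W} {u v : W}
    (w : (G.map f).Walk u v) (hw : ∀ z ∈ w.support, z ∈ A) :
    ∀ u' v', f u' = u → f v' = v → Cn G (f ⁻¹' A) u' v' := by
  induction w with
  | nil =>
    intro u' v' hu hv
    have : u' = v' := f.injective (hu.trans hv.symm)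
    subst this
    refine Cn.refl ?_
    change f u' ∈ A
    rw [hu]
    exact hw _ (by simp)
  | @cons a b c hab w ih =>
    intro u' v' hu hv
    rw [SimpleGraph.map_adj] at hab
    obtain ⟨p, q, hpq, hp, hq⟩ := hab
    have : p = u' := f.injective (hp.trans hu.symm)
    subst this
    refine (Cn.adj hpq ?_ ?_).trans (ih (fun z hz => hw z (by simp [hz])) q v' hq hv)
    · change f p ∈ A
      rw [hu]
      exact hw _ (by simp)
    · change f q ∈ A
      rw [hq]
      exact hw _ (by simp)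

theorem supp_range {V W : Type} (f : V ↪ W) (G : SimpleGraph V) {z : W}
    (h : ∃ t, (G.map f).Adj z t) : ∃ z', f z' = z := by
  obtain ⟨t, ht⟩ := h
  rw [SimpleGraph.map_adj] at ht
  obtain ⟨p, q, -, hp, -⟩ := ht
  exact ⟨p, hp⟩

theorem wk_ext (V W : Type) (f : V ↪ W) (G : SimpleGraph V) (h : WK W (G.map f)) : WK V G := by
  obtain ⟨x, A, hx, h1, h2, h3⟩ := wk_sym h
  have hr : ∀ a, ∃ a', f a' = x a := by
    intro a
    obtain ⟨b, hb⟩ : ∃ b, a ≠ b := by
      revert a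
      decide
    exact supp_range f G (h3 a b (cn_left (h1 a b hb)))
  choose x' hx' using hr
  refine ⟨x', fun a b => f ⁻¹' (A a b), ?_, ?_⟩
  · intro a b hab
    obtain ⟨w, hw⟩ := h1 a b hab.ne
    exact cn_pull f G w hw _ _ (hx' a) (hx' b)
  · intro a b c d hab hcd e1 e2 e3 e4
    exact (h2 a b c d hab.ne hcd.ne e1 e2 e3 e4).preimage f

theorem wb_ext (V W : Type) (f : V ↪ W) (G : SimpleGraph V) (h : WB W (G.map f)) : WB V G := by
  obtain ⟨x, y, A, hx, hy, hxy, h1, h2, h3⟩ := wb_sym h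
  have hr : ∀ a, ∃ a', f a' = x a := fun a => supp_range f G (h3 a 0 (cn_left (h1 a 0)))
  have hs : ∀ a, ∃ a', f a' = y a := fun a => supp_range f G (h3 0 a (cn_right (h1 0 a)))
  choose x' hx' using hr
  choose y' hy' using hs
  refine ⟨x', y', fun a b => f ⁻¹' (A a b), ?_, ?_⟩
  · intro a b
    obtain ⟨w, hw⟩ := h1 a b
    exact cn_pull f G w hw _ _ (hx' a) (hy' b)
  · intro a b c d e1 e2
    exact (h2 a b c d e1 e2).preimage f

theorem ctr_not {V : Type} {G : SimpleGraph V} {u v : V} {A : Set V}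
    (h : A ⊆ {z | ∃ t, (D0H36.BL.ctr G u v).Adj z t}) : v ∉ A := by
  intro hv
  obtain ⟨t, ht⟩ := h hv
  rw [ctr_adj] at ht
  exact ht.1 rfl

theorem disj_ctr {V : Type} {u v : V} {A B : Set V} (hA : v ∉ A) (hB : v ∉ B)
    (h : Disjoint A B) :
    Disjoint {t | t ∈ A ∨ (t = v ∧ u ∈ A)} {t | t ∈ B ∨ (t = v ∧ u ∈ B)} := by
  rw [Set.disjoint_left] at h ⊢
  rintro t (ht | ⟨e, ht⟩) (ht' | ⟨e', ht'⟩)
  · exact h ht ht'
  · rw [e'] at ht
    exact hA ht
  · rw [e] at ht'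
    exact hB ht'
  · exact h ht ht'

theorem wk_ctr (V : Type) (G : SimpleGraph V) (u v : V) (huv : G.Adj u v)
    (h : WK V (D0H36.BL.ctr G u v)) : WK V G := by
  obtain ⟨x, A, hx, h1, h2, h3⟩ := wk_sym h
  refine ⟨x, fun a b => {t | t ∈ A a b ∨ (t = v ∧ u ∈ A a b)}, ?_, ?_⟩
  · intro a b hab
    obtain ⟨w, hw⟩ := h1 a b hab.ne
    exact Pool.Agent.Y655.RF.ctr_cn huv w hw
  · intro a b c d hab hcd e1 e2 e3 e4
    exact disj_ctr (ctr_not (h3 a b)) (ctr_not (h3 c d)) (h2 a b c d hab.ne hcd.ne e1 e2 e3 e4)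

theorem wb_ctr (V : Type) (G : SimpleGraph V) (u v : V) (huv : G.Adj u v)
    (h : WB V (D0H36.BL.ctr G u v)) : WB V G := by
  obtain ⟨x, y, A, hx, hy, hxy, h1, h2, h3⟩ := wb_sym h
  refine ⟨x, y, fun a b => {t | t ∈ A a b ∨ (t = v ∧ u ∈ A a b)}, ?_, ?_⟩
  · intro a b
    obtain ⟨w, hw⟩ := h1 a b
    exact Pool.Agent.Y655.RF.ctr_cn huv w hw
  · intro a b c d e1 e2
    exact disj_ctr (ctr_not (h3 a b)) (ctr_not (h3 c d)) (h2 a b c d e1 e2)

/-! ### one edge -/

section join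

variable {V : Type} {G : SimpleGraph V} {W : Set V} {r x : V}

open Classical in
/-- everything outside `W` goes to `r` -/
noncomputable def rho (W : Set V) (r : V) (y : V) : V := if y ∈ W then y else r

theorem rho_in {y : V} (h : y ∈ W) : rho W r y = y := by
  unfold rho
  rw [if_pos h]

theorem rho_out {y : V} (h : y ∉ W) : rho W r y = r := by
  unfold rho
  rw [if_neg h]

/-- a walk which leaves `W` meets `r` -/
theorem walk_cross (hc : ∀ a b, a ∈ W → b ∉ W → G.Adj a b → a = r ∧ b = x) {u v : V}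
    (w : G.Walk u v) (hu : u ∈ W) (hv : v ∉ W) : r ∈ w.support := by
  induction w with
  | nil => exact absurd hu hv
  | @cons a b c hab w ih =>
    by_cases hb : b ∈ W
    · rw [SimpleGraph.Walk.support_cons]
      exact List.mem_cons_of_mem _ (ih hb hv)
    · rw [← (hc a b hu hb hab).1]
      simp

theorem walk_proj (hr : r ∈ W) (hc : ∀ a b, a ∈ W → b ∉ W → G.Adj a b → a = r ∧ b = x) {u v : V}
    {A : Set V} (w : G.Walk u v) (hw : ∀ z ∈ w.support, z ∈ A) (hA : u ∉ W → r ∈ A) :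
    Cn (ins G W) (A ∩ W) (rho W r u) (rho W r v) := by
  induction w with
  | @nil u =>
    by_cases hu : u ∈ W
    · rw [rho_in hu]
      exact Cn.refl ⟨hw _ (by simp), hu⟩
    · rw [rho_out hu]
      exact Cn.refl ⟨hA hu, hr⟩
  | @cons a b c hab w ih =>
    have ha : a ∈ A := hw a (by simp)
    have hb : b ∈ A := hw b (by simp)
    have hw' : ∀ z ∈ w.support, z ∈ A := fun z hz => hw z (by simp [hz])
    by_cases h1 : a ∈ W <;> by_cases h2 : b ∈ W
    · have h3 := ih hw' (fun h => absurd h2 h)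
      rw [rho_in h2] at h3
      rw [rho_in h1]
      have e : (ins G W).Adj a b := ⟨h1, h2, hab⟩
      have e1 : Cn (ins G W) (A ∩ W) a b := Cn.adj e ⟨ha, h1⟩ ⟨hb, h2⟩
      exact e1.trans h3
    · have h4 := (hc a b h1 h2 hab).1
      have h3 := ih hw' (fun _ => h4 ▸ ha)
      rw [rho_out h2] at h3
      rw [rho_in h1, h4]
      exact h3
    · have h4 := (hc b a h2 h1 hab.symm).1
      have h3 := ih hw' (fun h => absurd h2 h)
      rw [rho_in h2, h4] at h3
      rw [rho_out h1]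
      exact h3
    · have h3 := ih hw' (fun _ => hA h1)
      rw [rho_out h2] at h3
      rw [rho_out h1]
      exact h3

theorem cn_proj (hr : r ∈ W) (hc : ∀ a b, a ∈ W → b ∉ W → G.Adj a b → a = r ∧ b = x) {u v : V}
    {A : Set V} (h : Cn G A u v) (huv : u ∈ W ∨ v ∈ W) :
    Cn (ins G W) (A ∩ W) (rho W r u) (rho W r v) := by
  obtain ⟨w, hw⟩ := h
  refine walk_proj hr hc w hw (fun hu => ?_)
  rcases huv with huv | hv
  · exact absurd huv hu
  · have h1 := walk_cross hc w.reverse hv hu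
    rw [SimpleGraph.Walk.support_reverse, List.mem_reverse] at h1
    exact hw r h1

theorem cn_cross (hc : ∀ a b, a ∈ W → b ∉ W → G.Adj a b → a = r ∧ b = x) {u v : V}
    {A : Set V} (h : Cn G A u v) (hu : u ∈ W) (hv : v ∉ W) : r ∈ A := by
  obtain ⟨w, hw⟩ := h
  exact hw r (walk_cross hc w hu hv)

theorem wk_side (hr : r ∈ W) (hc : ∀ a b, a ∈ W → b ∉ W → G.Adj a b → a = r ∧ b = x)
    {y : Fin 5 → V} {A : Fin 5 → Fin 5 → Set V} (h1 : ∀ a b, a ≠ b → Cn G (A a b) (y a) (y b))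
    (h2 : ∀ a b c d, a ≠ b → c ≠ d → a ≠ c → a ≠ d → b ≠ c → b ≠ d → Disjoint (A a b) (A c d))
    (h3 : ∀ a b, a ≠ b → y a ∈ W ∨ y b ∈ W) : WK V (ins G W) := by
  refine ⟨fun a => rho W r (y a), fun a b => A a b ∩ W, ?_, ?_⟩
  · intro a b hab
    exact cn_proj hr hc (h1 a b hab.ne) (h3 a b hab.ne)
  · intro a b c d hab hcd e1 e2 e3 e4
    exact (h2 a b c d hab.ne hcd.ne e1 e2 e3 e4).mono Set.inter_subset_left Set.inter_subset_left

theorem wb_side (hr : r ∈ W) (hc : ∀ a b, a ∈ W → b ∉ W → G.Adj a b → a = r ∧ b = x)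
    {y z : Fin 3 → V} {A : Fin 3 → Fin 3 → Set V} (h1 : ∀ a b, Cn G (A a b) (y a) (z b))
    (h2 : ∀ a b c d, a ≠ c → b ≠ d → Disjoint (A a b) (A c d))
    (h3 : ∀ a b, y a ∈ W ∨ z b ∈ W) : WB V (ins G W) := by
  refine ⟨fun a => rho W r (y a), fun a => rho W r (z a), fun a b => A a b ∩ W, ?_, ?_⟩
  · intro a b
    exact cn_proj hr hc (h1 a b) (h3 a b)
  · intro a b c d e1 e2
    exact (h2 a b c d e1 e2).mono Set.inter_subset_left Set.inter_subset_left

theorem wk_join (hr : r ∈ W) (hx : x ∉ W)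
    (hc : ∀ a b, a ∈ W → b ∉ W → G.Adj a b → a = r ∧ b = x) (h : WK V G) :
    WK V (ins G W) ∨ WK V (ins G Wᶜ) := by
  obtain ⟨y, A, -, h1, h2, -⟩ := wk_sym h
  by_cases h3 : ∀ a b, a ≠ b → y a ∈ W ∨ y b ∈ W
  · exact Or.inl (wk_side hr hc h1 h2 h3)
  · right
    have hc' : ∀ a b, a ∈ Wᶜ → b ∉ Wᶜ → G.Adj a b → a = x ∧ b = r := by
      intro a b ha hb hab
      have := hc b a (not_not.1 hb) ha hab.symm
      exact ⟨this.2, this.1⟩
    refine wk_side (r := x) (x := r) hx hc' h1 h2 ?_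
    intro c d hcd
    by_contra h4
    push Not at h3 h4
    obtain ⟨a, b, hab, ha, hb⟩ := h3
    have hc1 : y c ∈ W := not_not.1 h4.1
    have hd1 : y d ∈ W := not_not.1 h4.2
    have e1 : c ≠ a := fun h => ha (h ▸ hc1)
    have e2 : c ≠ b := fun h => hb (h ▸ hc1)
    have e3 : d ≠ a := fun h => ha (h ▸ hd1)
    have e4 : d ≠ b := fun h => hb (h ▸ hd1)
    exact Set.disjoint_left.1 (h2 c a d b e1 e4 hcd e2 e3.symm hab)
      (cn_cross hc (h1 c a e1) hc1 ha) (cn_cross hc (h1 d b e4) hd1 hb)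

theorem wb_join (hr : r ∈ W) (hx : x ∉ W)
    (hc : ∀ a b, a ∈ W → b ∉ W → G.Adj a b → a = r ∧ b = x) (h : WB V G) :
    WB V (ins G W) ∨ WB V (ins G Wᶜ) := by
  obtain ⟨y, z, A, -, -, -, h1, h2, -⟩ := wb_sym h
  by_cases h3 : ∀ a b, y a ∈ W ∨ z b ∈ W
  · exact Or.inl (wb_side hr hc h1 h2 h3)
  · right
    have hc' : ∀ a b, a ∈ Wᶜ → b ∉ Wᶜ → G.Adj a b → a = x ∧ b = r := by
      intro a b ha hb hab
      have := hc b a (not_not.1 hb) ha hab.symm
      exact ⟨this.2, this.1⟩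
    refine wb_side (r := x) (x := r) hx hc' h1 h2 ?_
    intro c d
    by_contra h4
    push Not at h3 h4
    obtain ⟨a, b, ha, hb⟩ := h3
    have hc1 : y c ∈ W := not_not.1 h4.1
    have hd1 : z d ∈ W := not_not.1 h4.2
    have e1 : c ≠ a := fun h => ha (h ▸ hc1)
    have e4 : d ≠ b := fun h => hb (h ▸ hd1)
    have k1 := cn_cross hc (h1 c b) hc1 hb
    have k2 := cn_cross hc (h1 a d).symm hd1 ha
    exact Set.disjoint_left.1 (h2 c b a d e1 e4.symm) k1 k2

end join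

theorem t_CLS : S_CLS where
  mono := fun V G H h hG => ⟨fun k => hG.1 (wk_le h k), fun k => hG.2 (wb_le h k)⟩
  emb := fun V W f hf G hG => ⟨fun k => hG.1 (wk_emb V W f hf G k), fun k => hG.2 (wb_emb V W f hf G k)⟩
  ext := fun V W f G hG => ⟨fun k => hG.1 (wk_ext V W f G k), fun k => hG.2 (wb_ext V W f G k)⟩
  ctr := fun V G u v huv hG => ⟨fun k => hG.1 (wk_ctr V G u v huv k), fun k => hG.2 (wb_ctr V G u v huv k)⟩
  join := fun V G W r x hr hx hc h1 h2 => by
    constructor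
    · intro k
      rcases wk_join hr hx hc k with k | k
      · exact h1.1 k
      · exact h2.1 k
    · intro k
      rcases wb_join hr hx hc k with k | k
      · exact h1.2 k
      · exact h2.2 k
  deg := fun V _ _ G hG => Pool.Agent.Y655.RF.t_DEG V G hG.1

/-! ### the book graph -/

theorem book_adj {h : ℕ} {i j : Fin h} : (book h).Adj i j ↔ i ≠ j ∧ (i.1 < 2 ∨ j.1 < 2) := Iff.rfl

theorem book_two {h : ℕ} (hh : 3 ≤ h) : TwoEdge (book h) := by
  intro X hX hX'
  obtain ⟨p, hp⟩ := hX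
  obtain ⟨q, hq⟩ := hX'
  have hq : q ∉ X := hq
  let v0 : Fin h := ⟨0, by omega⟩
  let v1 : Fin h := ⟨1, by omega⟩
  let v2 : Fin h := ⟨2, by omega⟩
  have e01 : v0 ≠ v1 := by simp [v0, v1]
  have e02 : v0 ≠ v2 := by simp [v0, v2]
  have e12 : v1 ≠ v2 := by simp [v1, v2]
  have a0 : ∀ i, v0 ≠ i → (book h).Adj v0 i := fun i hi => ⟨hi, Or.inl (by simp [v0])⟩
  have a1 : ∀ i, v1 ≠ i → (book h).Adj v1 i := fun i hi => ⟨hi, Or.inl (by simp [v1])⟩
  by_cases h0 : v0 ∈ X <;> by_cases h1 : v1 ∈ X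
  · have k0 : v0 ≠ q := fun e => hq (e ▸ h0)
    have k1 : v1 ≠ q := fun e => hq (e ▸ h1)
    exact ⟨v0, q, v1, q, h0, hq, h1, hq, a0 q k0, a1 q k1, fun e => e01 (Prod.mk.inj e).1⟩
  · by_cases h2 : v2 ∈ X
    · exact ⟨v0, v1, v2, v1, h0, h1, h2, h1, a0 _ e01, (a1 _ e12).symm, fun e => e02 (Prod.mk.inj e).1⟩
    · exact ⟨v0, v1, v0, v2, h0, h1, h0, h2, a0 _ e01, a0 _ e02, fun e => e12 (Prod.mk.inj e).2⟩
  · by_cases h2 : v2 ∈ X
    · exact ⟨v1, v0, v2, v0, h1, h0, h2, h0, a1 _ e01.symm, (a0 _ e02).symm,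
        fun e => e12 (Prod.mk.inj e).1⟩
    · exact ⟨v1, v0, v1, v2, h1, h0, h1, h2, a1 _ e01.symm, a1 _ e12,
        fun e => e02 (Prod.mk.inj e).2⟩
  · have k0 : v0 ≠ p := fun e => h0 (e ▸ hp)
    have k1 : v1 ≠ p := fun e => h1 (e ▸ hp)
    exact ⟨p, v0, p, v1, hp, h0, hp, h1, (a0 p k0).symm, (a1 p k1).symm,
      fun e => e01 (Prod.mk.inj e).2⟩

/-- a set with a nontrivial walk starting outside the spine meets the spine -/
theorem book_meet {h : ℕ} {A : Set (Fin h)} {u v : Fin h} (hc : Cn (book h) A u v) (huv : u ≠ v) :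
    ∃ z ∈ A, z.1 < 2 := by
  obtain ⟨w, hw⟩ := hc
  obtain ⟨t, ht, htw⟩ := walk_first w huv
  rcases ht.2 with h1 | h1
  · exact ⟨u, hw u (by simp), h1⟩
  · exact ⟨t, hw t htw, h1⟩

theorem book_meet' {h : ℕ} {A : Set (Fin h)} {u v : Fin h} (hc : Cn (book h) A u v) (huv : u ≠ v)
    (v0 v1 : Fin h) (h0 : v0.1 = 0) (h1 : v1.1 = 1) : v0 ∈ A ∨ v1 ∈ A := by
  obtain ⟨z, hz, hz2⟩ := book_meet hc huv
  have : z.1 = 0 ∨ z.1 = 1 := by omega
  rcases this with h | h
  · left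
    rwa [Fin.ext (h0.trans h.symm)]
  · right
    rwa [Fin.ext (h1.trans h.symm)]

theorem book_wk {h : ℕ} (hh : 3 ≤ h) : ¬ WK (Fin h) (book h) := by
  intro hK
  obtain ⟨x, A, hx, h1, h2, -⟩ := wk_sym hK
  have m : ∀ a b, a ≠ b → (⟨0, by omega⟩ : Fin h) ∈ A a b ∨ (⟨1, by omega⟩ : Fin h) ∈ A a b :=
    fun a b hab => book_meet' (h1 a b hab) (fun e => hab (hx e)) _ _ rfl rfl
  have d : ∀ (v : Fin h) a b c d, a ≠ b → c ≠ d → a ≠ c → a ≠ d → b ≠ c → b ≠ d →
      ¬ (v ∈ A a b ∧ v ∈ A c d) := fun v a b c d e1 e2 e3 e4 e5 e6 k =>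
    Set.disjoint_left.1 (h2 a b c d e1 e2 e3 e4 e5 e6) k.1 k.2
  have m1 := m 0 1 (by decide)
  have m2 := m 2 3 (by decide)
  have m3 := m 0 4 (by decide)
  have m4 := m 1 2 (by decide)
  have m5 := m 3 4 (by decide)
  have p1 := d ⟨0, by omega⟩ 0 1 2 3 (by decide) (by decide) (by decide) (by decide) (by decide) (by decide)
  have p2 := d ⟨0, by omega⟩ 2 3 0 4 (by decide) (by decide) (by decide) (by decide) (by decide) (by decide)
  have p3 := d ⟨0, by omega⟩ 0 4 1 2 (by decide) (by decide) (by decide) (by decide) (by decide) (by decide)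
  have p4 := d ⟨0, by omega⟩ 1 2 3 4 (by decide) (by decide) (by decide) (by decide) (by decide) (by decide)
  have p5 := d ⟨0, by omega⟩ 3 4 0 1 (by decide) (by decide) (by decide) (by decide) (by decide) (by decide)
  have q1 := d ⟨1, by omega⟩ 0 1 2 3 (by decide) (by decide) (by decide) (by decide) (by decide) (by decide)
  have q2 := d ⟨1, by omega⟩ 2 3 0 4 (by decide) (by decide) (by decide) (by decide) (by decide) (by decide)
  have q3 := d ⟨1, by omega⟩ 0 4 1 2 (by decide) (by decide) (by decide) (by decide) (by decide) (by decide)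
  have q4 := d ⟨1, by omega⟩ 1 2 3 4 (by decide) (by decide) (by decide) (by decide) (by decide) (by decide)
  have q5 := d ⟨1, by omega⟩ 3 4 0 1 (by decide) (by decide) (by decide) (by decide) (by decide) (by decide)
  rcases m1 with k1 | k1
  · have k2 := m2.resolve_left (fun e => p1 ⟨k1, e⟩)
    have k3 := m3.resolve_right (fun e => q2 ⟨k2, e⟩)
    have k4 := m4.resolve_left (fun e => p3 ⟨k3, e⟩)
    have k5 := m5.resolve_right (fun e => q4 ⟨k4, e⟩)
    exact p5 ⟨k5, k1⟩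
  · have k2 := m2.resolve_right (fun e => q1 ⟨k1, e⟩)
    have k3 := m3.resolve_left (fun e => p2 ⟨k2, e⟩)
    have k4 := m4.resolve_right (fun e => q3 ⟨k3, e⟩)
    have k5 := m5.resolve_left (fun e => p4 ⟨k4, e⟩)
    exact q5 ⟨k5, k1⟩

theorem book_wb {h : ℕ} (hh : 3 ≤ h) : ¬ WB (Fin h) (book h) := by
  intro hK
  obtain ⟨x, y, A, hx, hy, hxy, h1, h2, -⟩ := wb_sym hK
  have m : ∀ a b, (⟨0, by omega⟩ : Fin h) ∈ A a b ∨ (⟨1, by omega⟩ : Fin h) ∈ A a b :=
    fun a b => book_meet' (h1 a b) (hxy a b) _ _ rfl rfl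
  have d : ∀ (v : Fin h) a b c d, a ≠ c → b ≠ d →
      ¬ (v ∈ A a b ∧ v ∈ A c d) := fun v a b c d e1 e2 k =>
    Set.disjoint_left.1 (h2 a b c d e1 e2) k.1 k.2
  have m1 := m 0 0
  have m2 := m 1 1
  have m3 := m 2 2
  have p1 := d ⟨0, by omega⟩ 0 0 1 1 (by decide) (by decide)
  have p2 := d ⟨0, by omega⟩ 0 0 2 2 (by decide) (by decide)
  have p3 := d ⟨0, by omega⟩ 1 1 2 2 (by decide) (by decide)
  have q1 := d ⟨1, by omega⟩ 0 0 1 1 (by decide) (by decide)
  have q2 := d ⟨1, by omega⟩ 0 0 2 2 (by decide) (by decide)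
  have q3 := d ⟨1, by omega⟩ 1 1 2 2 (by decide) (by decide)
  rcases m1 with k1 | k1
  · have k2 := m2.resolve_left (fun e => p1 ⟨k1, e⟩)
    have k3 := m3.resolve_left (fun e => p2 ⟨k1, e⟩)
    exact q3 ⟨k2, k3⟩
  · have k2 := m2.resolve_right (fun e => q1 ⟨k1, e⟩)
    have k3 := m3.resolve_right (fun e => q2 ⟨k1, e⟩)
    exact p3 ⟨k2, k3⟩

theorem book_minor {h : ℕ} (hh : 3 ≤ h) : MinorDegLe 2 (book h) := by
  intro m B hm hB hd
  let v0 : Fin h := ⟨0, by omega⟩
  let v1 : Fin h := ⟨1, by omega⟩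
  have s : ∀ v : Fin h, ({j | v ∈ B j} : Set (Fin m)).ncard ≤ 1 := by
    intro v
    rw [Set.ncard_le_one_iff]
    intro a b ha hb
    by_contra hne
    exact Set.disjoint_left.1 (hd a b hne) ha hb
  have s2 : ({j | v0 ∈ B j} ∪ {j | v1 ∈ B j} : Set (Fin m)).ncard ≤ 2 := by
    have := Set.ncard_union_le {j | v0 ∈ B j} {j | v1 ∈ B j}
    have h0 := s v0
    have h1 := s v1
    omega
  by_cases hc : ∃ i, v0 ∉ B i ∧ v1 ∉ B i
  · obtain ⟨i, hi0, hi1⟩ := hc
    refine ⟨i, le_trans (Set.ncard_le_ncard ?_ (Set.toFinite _)) s2⟩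
    rintro j ⟨hj, x, hx, y, hy, -, hxy⟩
    have key : ∀ z : Fin h, z.1 < 2 → z = v0 ∨ z = v1 := by
      intro z hz
      have : z.1 = 0 ∨ z.1 = 1 := by omega
      rcases this with h | h
      · exact Or.inl (Fin.ext h)
      · exact Or.inr (Fin.ext h)
    rcases hxy with h | h
    · rcases key x h with h | h
      · exact absurd (h ▸ hx) hi0
      · exact absurd (h ▸ hx) hi1
    · rcases key y h with h | h
      · exact Or.inl (h ▸ hy : v0 ∈ B j)
      · exact Or.inr (h ▸ hy : v1 ∈ B j)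
  · push Not at hc
    refine ⟨⟨0, hm⟩, le_trans (Set.ncard_le_ncard ?_ (Set.toFinite _)) s2⟩
    intro j _
    by_cases h0 : v0 ∈ B j
    · exact Or.inl h0
    · exact Or.inr (hc j h0)

theorem t_BOOK : S_BOOK := by
  intro h hh
  refine ⟨⟨book_wk hh, book_wb hh⟩, book_two hh, ?_⟩
  intro q hq
  exact minorDeg_pos 2 q (by exact_mod_cast hq) (book h) (book_minor hh)

end Pool.Agent.D0H73.BL
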